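import Pool.Agent.H53.GM.Targets2

/-!
# MP_6ab439_lc, board `gm2_modules`, row GL3: connected structures
-/

set_option autoImplicit false

namespace Pool.Agent.H85.GM

open Pool.Agent.H68.BP Pool.Agent.H58.SF Pool.Agent.H53.GC Pool.Agent.H53.GR
open Pool.Agent.H53.GM
open Classical

theorem pf_GL3 : Pool.Agent.H53.GM.T_GL3 := by
  intro τ N W I Mi B K M D f har hK hM hB hf hconn _
  by_cases h : RC D (fun v => if f v ∈ K then some () else none)
  · exact Or.inl h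
  right
  unfold RC at h
  push Not at h
  obtain ⟨S, hS, ⟨l, z, hz, hzS⟩, hn⟩ := h
  have hnK : ∀ v ∈ S, f v ∉ K := by
    intro v hv hvK
    have h1 := hn v hv
    rw [if_pos hvK] at h1
    exact absurd h1 (by simp)
  obtain ⟨i, hi⟩ := hM l _ (hf l z hz)
  have key : ∀ (l' : Fin τ.m) (z' : Fin (τ.ar l') → Fin N), D l' z' →
      ∀ a, z' a ∈ S → f (z' a) ∈ B i → Mi i l' (fun b => f (z' b)) := by
    intro l' z' hz' a ha hab
    obtain ⟨j, hj⟩ := hM l' _ (hf l' z' hz')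
    have hij : i = j := by
      by_contra hne
      exact hnK _ ha (hK i j _ hab (hB j l' _ hj a) hne)
    rw [hij]
    exact hj
  have hcl : AClosed D {v | v ∈ S ∧ f v ∈ B i} := by
    rintro l' z' hz' ⟨a, ha, hab⟩ b
    exact ⟨hS l' z' hz' ⟨a, ha⟩ b, hB i l' _ (key l' z' hz' a ha hab) b⟩
  have hat : HasAt D {v | v ∈ S ∧ f v ∈ B i} :=
    ⟨l, z, hz, fun a => ⟨hzS a, hB i l _ hi a⟩⟩
  refine ⟨i, fun l' z' hz' => ?_⟩
  have h1 := hconn _ hcl hat l' z' hz' ⟨0, har l'⟩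
  exact key l' z' hz' _ h1.1 h1.2

end Pool.Agent.H85.GM
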